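import Pool.Agent.Y924.EL.Main2

/-!
# MP_909098_lc: the theories of the rings F_p[[t]] and F_p((t)) are not elementary recursive

The function `J (x, y) = x ^ p + t y ^ p` is an injection of `R²` into `R` for `R = F_p[[t]]`,
for `R = F_p((t))`, and for every domain `R` of characteristic `p` with an element `t` which is
not a `p`-th power in the field of fractions.
-/

set_option autoImplicit false

namespace Pool.Agent.Results.MP_909098_lc.NonElementary

open Pool.Agent.Y924.EL
open Nat.Partrec (Code)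

/-- the sentence is true in `F_p((t))` -/
def InL (p : ℕ) [Fact p.Prime] (φ : Fm) : Prop :=
  ∀ v : ℕ → LaurentSeries (ZMod p), Sat Set.univ φ v

/-- the sentence is true in `F_p[[t]]` -/
def InS (p : ℕ) [Fact p.Prime] (φ : Fm) : Prop :=
  ∀ v : ℕ → PowerSeries (ZMod p), Sat Set.univ φ v

/-- the sentence is true in every domain of characteristic `p` which has an element `t` that is
not a `p`-th power in the field of fractions (with every subset as the unary predicate) -/
def InAll (p : ℕ) (φ : Fm) : Prop :=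
  ∀ (A : Type) [CommRing A] [IsDomain A] [CharP A p],
    (∃ t : A, ∀ a b : A, b ≠ 0 → a ^ p ≠ t * b ^ p) →
      ∀ (O : Set A) (v : ℕ → A), Sat O φ v

/-- test sentences: closed, without the unary predicate, only with the variables
`x_0, ..., x_63`, with code at least `B` -/
def Test (B : ℕ) (φ : Fm) : Prop := φ.fv = ∅ ∧ φ.InRing 64 ∧ B ≤ φ.code

theorem inAll_of_trueP (p : ℕ) [Fact p.Prime] {φ : Fm} (h : TrueP p φ) : InAll p φ := by
  intro A _ _ _ ht O v
  obtain ⟨t, ht⟩ := ht
  refine h A O v ⟨t, fun x y x' y' e => ?_⟩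
  have hp : p.Prime := Fact.out
  have h1 : (x - x') ^ p = t * (y' - y) ^ p := by
    rw [sub_pow_char, sub_pow_char]
    linear_combination e
  have hy : y = y' := by
    by_contra hne
    exact ht (x - x') (y' - y) (fun e => hne (sub_eq_zero.1 e).symm) h1
  subst hy
  rw [sub_self, zero_pow hp.ne_zero, mul_zero] at h1
  exact ⟨sub_eq_zero.1 ((pow_eq_zero_iff hp.ne_zero).1 h1), rfl⟩

theorem inS_of_trueP (p : ℕ) [Fact p.Prime] {φ : Fm} (h : TrueP p φ) : InS p φ := fun v =>
  h (PowerSeries (ZMod p)) Set.univ v ⟨PowerSeries.X, Pool.Agent.Y692.EL.power p⟩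

theorem inL_of_trueP (p : ℕ) [Fact p.Prime] {φ : Fm} (h : TrueP p φ) : InL p φ := fun v => by
  have : CharP (LaurentSeries (ZMod p)) p :=
    charP_of_injective_ringHom (f := (HahnSeries.C : ZMod p →+* HahnSeries ℤ (ZMod p)))
      HahnSeries.C_injective p
  obtain ⟨t, ht⟩ := Pool.Agent.Y692.EL.laurent p
  exact h (LaurentSeries (ZMod p)) Set.univ v
    ⟨t, Pool.Agent.Y692.EL.t_INJ (LaurentSeries (ZMod p)) p t ht⟩

theorem not_neg (p : ℕ) [Fact p.Prime] {φ : Fm} (h : InS p φ ∨ InL p φ) : ¬ TrueP p φ.neg := by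
  intro h1
  rcases h with h | h
  · exact inS_of_trueP p h1 0 (h 0)
  · exact inL_of_trueP p h1 0 (h 0)

theorem result (p : ℕ) [Fact p.Prime] :
    -- no elementary function decides one of the two theories, even for the test sentences
    (∀ χ : ℕ → ℕ, E3 χ → ∀ B : ℕ, ∃ φ : Fm, Test B φ ∧
      ((χ φ.code = 0 ∧ InS p φ ∧ InL p φ ∧ InAll p φ) ∨
        (χ φ.code ≠ 0 ∧ InS p φ.neg ∧ InL p φ.neg ∧ InAll p φ.neg))) ∧
    -- every program which accepts only sentences true in one of the two rings fails, within the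
    -- time given by any fixed tower of exponentials, to accept infinitely many test sentences
    -- which are true in both
    (∀ c : Code, (∀ φ : Fm, Test 0 φ → ∀ y ∈ c.eval φ.code, y ≠ 0 → InS p φ ∨ InL p φ) →
      ∀ k B : ℕ, ∃ φ : Fm, Test B φ ∧ InS p φ ∧ InL p φ ∧ InAll p φ ∧
        ∀ y ∈ Code.evaln (tower k φ.code) c φ.code, y = 0) ∧
    -- every sound elementary notion of proof needs proofs of non-elementary size
    (∀ R b : ℕ → ℕ, E3 R → E3 b →
      (∀ (φ : Fm) (w : ℕ), Test 0 φ → R (Nat.pair φ.code w) ≠ 0 → InS p φ ∨ InL p φ) →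
      ∀ B : ℕ, ∃ φ : Fm, Test B φ ∧ InS p φ ∧ InL p φ ∧ InAll p φ ∧
        ∀ w ≤ b φ.code, R (Nat.pair φ.code w) = 0) := by
  refine ⟨fun χ hχ B => ?_, fun c hc k B => ?_, fun R b hR hb hs B => ?_⟩
  · obtain ⟨φ, h1, h2⟩ := dec p χ hχ B
    refine ⟨φ, h1, ?_⟩
    rcases h2 with ⟨h2, h3⟩ | ⟨h2, h3⟩
    · exact Or.inl ⟨h2, inS_of_trueP p h3, inL_of_trueP p h3, inAll_of_trueP p h3⟩
    · exact Or.inr ⟨h2, inS_of_trueP p h3, inL_of_trueP p h3, inAll_of_trueP p h3⟩
  · obtain ⟨φ, h1, h2, h3⟩ := prog p c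
      (fun φ h y hy h0 => not_neg p (hc φ h y hy h0)) k B
    exact ⟨φ, h1, inS_of_trueP p h2, inL_of_trueP p h2, inAll_of_trueP p h2, h3⟩
  · obtain ⟨φ, h1, h2, h3⟩ := prf p R b hR hb
      (fun φ w h h0 => not_neg p (hs φ w h h0)) B
    exact ⟨φ, h1, inS_of_trueP p h2, inL_of_trueP p h2, inAll_of_trueP p h2, h3⟩

end Pool.Agent.Results.MP_909098_lc.NonElementary
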